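import Pool.Agent.TH117.GN.Generic

/-!
# The conjecture of Tate and Beilinson for function fields of surfaces generated by abelian varieties

`C` is a class of schemes over the finite field for which the conjecture of Tate and Beilinson `TB` is
known, for example all schemes of dimension at most one (Soulé, Geisser, Kahn). `X` is a variety in
the class generated by `C` and the abelian varieties `IsGoodAV`, and `U' ⊆ U` are open subschemes of
`X` such that the complement of `U'` belongs to `C` (for the first choice of `C`: any open subschemes
of a surface `X`); `ρ` is the restriction from `U` to `U'`.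

The theorem: a class `e` on `U` becomes invariant on `U'` if and only if it comes on `U'` from the
higher Chow groups; elements of the higher Chow groups of `U` that remain linearly independent on `U'`
have linearly independent classes there; and the eigenvalue one is semisimple on `U'`. In the limit
over all `U'` these are the three statements for the function field of `X`.
-/

set_option autoImplicit false

open Pool.Agent.W495.FM Pool.Agent.TH117.GN

namespace Pool.Agent.Results.MP_677d84_ag.FunctionFieldsOfSurfaces

theorem result (p : ℕ) [Fact p.Prime] (ν : PadicAlgCl p ≃+* ℂ) (Ω : Type) [Field Ω]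
    [IsAlgClosed Ω] [CharZero Ω] (V : Type) (T : Homology Ω V) (hT : IsHomology T) (C : V → Prop)
    (hC : ∀ Z, C Z → TB T Z) (X : V)
    (hX : Generated T (fun Y => IsGoodAbelian p ν T Y ∨ C Y) X)
    (Z U U' : V) (hU : IsTriple T Z X U') (hZ : C Z) (i j : ℤ) (ρ : Hom T U i j U' i j) :
    (∀ e, ρ.g (T.frob U i j e) = ρ.g e ↔ ρ.g e ∈ Submodule.span Ω (Set.range (T.reg U' i j))) ∧
    (∀ (r : ℕ) (x : Fin r → T.M U i j), (LinearIndependent ℚ fun k => ρ.f (x k)) →
      LinearIndependent Ω fun k => ρ.g (T.reg U i j (x k))) ∧
    ∀ e, ρ.g (T.frob U i j (T.frob U i j e - e)) = ρ.g (T.frob U i j e - e) →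
      ρ.g (T.frob U i j e) = ρ.g e :=
  generic_of_tb hT (tb_opened hT hU (hC Z hZ) (tb_good_or hT hC hX)) ρ

end Pool.Agent.Results.MP_677d84_ag.FunctionFieldsOfSurfaces
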