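import Pool.Agent.TH116.BM.Diag

/-!
# Function fields over finite fields: one diagonal for rational function fields

For a variety `X` of dimension `d` over a finite field let `V (s, m, d)` be the vanishing
`H^{2j-s} (F₀ X̄, ℚ_ℓ(j))^G = 0`, `j = d - m`. For `m + s < d`, i.e. `2j - s > j`, it is part of the question
(the higher Chow groups `CH^j (Spec F, s)` of fields are zero for `s < j`). We prove:

* `V (t+r+1, m, d+r+1)` for the rational function field in `d + r + 1` variables implies `V (t, m, d)` for
  all function fields of transcendence degree `d`;
* for fixed `m` and `s`: if `V (s, m, n)` holds for the rational function fields in `n` variables,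
  `m + s < n ≤ 2m + s` (finitely many `n`), then `V (t, m, d)` holds for all `t < s` and all function fields;
  if `s ≥ 1`, the Tate conjecture and semisimplicity at `1` hold for the cycles of dimension `m` on all
  smooth projective varieties; if `s ≥ 2`, the map `CH_m (X) ⊗ ℚ_ℓ → H_{2m} (X̄, ℚ_ℓ(m))` is injective for
  all proper varieties `X` (Beilinson's conjecture).

So one diagonal `2j - i = s ≥ 2` of the vanishing part of the question for the rational function fields
implies the conjectures of Tate and Beilinson and semisimplicity. For `m = 1` only one group is needed for
each `s`: if `H^n (F₀ 𝔸ⁿ, ℚ_ℓ(n-1))^G = 0` for one `n ≥ 3`, then the Tate conjecture holds for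
`1`-cycles, so for divisors, on all smooth projective varieties.

Proof of the first item (`r = 0`). Let `Y` be smooth projective of dimension `d`, finite and birational
over a hypersurface `Z` in `𝔸^{d+1}` (up to infinity). After an automorphism of affine space `Z` is finite over
`𝔸^d`, so that the homology of `Z` over an open subset `V` of `𝔸^d` maps to zero in the homology
of `𝔸¹ × V`. So an invariant element of `H_{2m+t} (Z ∖ T, m)` is, on an open subset, the boundary of a
generalized invariant element of `H_{2m+t+1}` of an open subset of affine space. This vanishes on a smaller
open subset by assumption, and so does its boundary. For arbitrary function fields use alterations.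
-/

set_option autoImplicit false

namespace Pool.Agent.Results.MP_677d84_ag.OneDiagonal

open Pool.Agent.TH116.BM

/-- The vanishing part of the Tate conjecture for function fields over finite fields: vanishing for the
rational function fields on one diagonal `2 j - i = s` implies vanishing for all function fields on the
lower diagonals, and the Tate conjecture and semisimplicity (`s ≥ 1`) and Beilinson's conjecture
(`s ≥ 2`) for cycles of dimension `m` on all smooth projective varieties. -/
theorem result {K : Type} [Field K] [CharZero K] {E : Theory K} (D : AffineSpaces E)
    (G : GenericFacts D) (m : ℕ) :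
    (∀ t r d : ℕ, m + t < d → D.RationalVanishing (t + r + 1) m (d + r + 1) →
      E.Vanishing t m d) ∧
    ∀ s : ℕ, (∀ n, m + s < n → n ≤ 2 * m + s → D.RationalVanishing s m n) →
      (∀ t, t < s → ∀ d, m + t < d → E.Vanishing t m d) ∧
      (1 ≤ s → ∀ Y, E.SP Y → E.Tate m (Set.univ : Set (E.Pt Y)) ∅ ∧
        E.SemisimpleAtOne m (Set.univ : Set (E.Pt Y)) ∅) ∧
      (2 ≤ s → ∀ (X : E.V) (c : E.Z X m →₀ K), E.VanishesOn c Set.univ →
        E.RationallyTrivial c) := by
  refine ⟨fun t r d hd h => D.vanishing_of_rational' G r t d hd h, fun s h => ?_⟩
  have h1 : ∀ t, t < s → ∀ d, m + t < d → E.Vanishing t m d :=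
    fun t ht d hd => D.vanishing_of_finite G h ht hd
  refine ⟨h1, fun hs Y _ => ?_, fun hs X c hc => ?_⟩
  · exact E.Strong_iff.1 (Theory.Strong_of_vanishing (fun d hd => h1 0 (by omega) d hd)
      isClosed_univ)
  · exact Theory.rationallyTrivial (fun d hd => h1 1 (by omega) d hd) c hc

end Pool.Agent.Results.MP_677d84_ag.OneDiagonal
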